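import Pool.Agent.TH279.MD.Defs

set_option autoImplicit false

open Set Filter Metric MeasureTheory
open Pool.Agent.TH279.MD

namespace Pool.Agent.TH312.J2485

theorem vv_eq {d : ℕ} (hd : 2 ≤ d) (c₀ : ℂ) (j : ℕ) : vv d c₀ c₀ j = (f d c₀)^[j + 1] 0 := by
  unfold vv
  rw [Function.iterate_succ_apply]
  congr 1
  unfold f
  rw [zero_pow (by omega), zero_add]

theorem it_succ (d : ℕ) (c₀ : ℂ) (i : ℕ) :
    (f d c₀)^[i + 1] 0 = ((f d c₀)^[i] 0) ^ d + c₀ := by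
  rw [Function.iterate_succ_apply']
  rfl

/-- equal powers: the quotient is a root of unity -/
theorem ratio {d : ℕ} {x y : ℂ} (hy : y ≠ 0) (h : x ^ d = y ^ d) :
    (x / y) ^ d = 1 ∧ x = (x / y) * y := by
  constructor
  · rw [div_pow, h, div_self (pow_ne_zero _ hy)]
  · field_simp

/-- a strictly preperiodic critical point -/
theorem orb_of_preper {d : ℕ} (hd : 2 ≤ d) {c₀ : ℂ}
    (hpp : ∃ m n : ℕ, 1 ≤ n ∧ (f d c₀)^[m + n] 0 = (f d c₀)^[m] 0)
    (hnp : ∀ p : ℕ, 1 ≤ p → (f d c₀)^[p] 0 ≠ 0) : ∃ (L k : ℕ) (ω : ℂ), Orb d L k ω c₀ c₀ := by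
  classical
  have hd0 : d ≠ 0 := by omega
  -- existence of a pair
  have hex : ∃ L k : ℕ, k < L ∧ ∃ ω : ℂ, ω ^ d = 1 ∧ ω ≠ 1 ∧ vv d c₀ c₀ L = ω * vv d c₀ c₀ k := by
    have hm := Nat.find_spec hpp
    set m := Nat.find hpp with hmdef
    obtain ⟨n, hn, hmn⟩ := hm
    have hm0 : m ≠ 0 := by
      intro h0
      rw [h0, zero_add] at hmn
      exact hnp n hn hmn
    obtain ⟨m', hm'⟩ : ∃ m', m = m' + 1 := ⟨m - 1, by omega⟩
    have hmin : ¬ ∃ n : ℕ, 1 ≤ n ∧ (f d c₀)^[m' + n] 0 = (f d c₀)^[m'] 0 :=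
      Nat.find_min hpp (by omega)
    have h1 : ((f d c₀)^[m' + n] 0) ^ d = ((f d c₀)^[m'] 0) ^ d := by
      have h2 : (f d c₀)^[(m' + n) + 1] 0 = (f d c₀)^[m' + 1] 0 := by
        rw [← hm', ← hmn]
        congr 1
        omega
      rw [it_succ, it_succ] at h2
      exact add_right_cancel h2
    have hm'0 : m' ≠ 0 := by
      intro h0
      rw [h0, zero_add, Function.iterate_zero, id, zero_pow hd0] at h1
      exact hnp n hn (pow_eq_zero_iff hd0 |>.1 h1)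
    have hy : (f d c₀)^[m'] 0 ≠ 0 := hnp m' (by omega)
    obtain ⟨h4, h5⟩ := ratio hy h1
    obtain ⟨m'', hm''⟩ : ∃ m'', m' = m'' + 1 := ⟨m' - 1, by omega⟩
    refine ⟨m'' + n, m'', by omega, (f d c₀)^[m' + n] 0 / (f d c₀)^[m'] 0, h4, ?_, ?_⟩
    · intro h6
      rw [h6, one_mul] at h5
      exact hmin ⟨n, hn, h5⟩
    · rw [vv_eq hd, vv_eq hd, ← hm'', ← h5]
      congr 1
      omega
  obtain ⟨k, hk, ω, hω, hω1, hopp⟩ := Nat.find_spec hex
  set L := Nat.find hex with hL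
  have hminL : ∀ L' < L, ∀ k' < L', ∀ ω' : ℂ, ω' ^ d = 1 → ω' ≠ 1 →
      vv d c₀ c₀ L' ≠ ω' * vv d c₀ c₀ k' := by
    intro L' hL' k' hk' ω' h1 h2 h
    exact Nat.find_min hex hL' ⟨k', hk', ω', h1, h2, h⟩
  refine ⟨L, k, ω, hk, ?_, hω, hopp⟩
  -- injectivity
  have key : ∀ i j : ℕ, i < j → j ≤ L → vv d c₀ c₀ i ≠ vv d c₀ c₀ j := by
    intro i
    induction i with
    | zero =>
      intro j hj hjL h
      obtain ⟨j', rfl⟩ : ∃ j', j = j' + 1 := ⟨j - 1, by omega⟩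
      rw [vv_zero, vv_succ] at h
      have h1 : vv d c₀ c₀ j' ^ d = 0 := by
        have : vv d c₀ c₀ j' ^ d + c₀ = 0 + c₀ := by rw [← h, zero_add]
        exact add_right_cancel this
      have h2 : vv d c₀ c₀ j' = 0 := pow_eq_zero_iff hd0 |>.1 h1
      rw [vv_eq hd] at h2
      exact hnp (j' + 1) (by omega) h2
    | succ i ih =>
      intro j hj hjL h
      obtain ⟨j', rfl⟩ : ∃ j', j = j' + 1 := ⟨j - 1, by omega⟩
      rw [vv_succ, vv_succ] at h
      have h1 : vv d c₀ c₀ j' ^ d = vv d c₀ c₀ i ^ d := (add_right_cancel h).symm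
      have hy : vv d c₀ c₀ i ≠ 0 := by rw [vv_eq hd]; exact hnp (i + 1) (by omega)
      obtain ⟨h4, h5⟩ := ratio hy h1
      by_cases h6 : vv d c₀ c₀ j' / vv d c₀ c₀ i = 1
      · rw [h6, one_mul] at h5
        exact ih j' (by omega) (by omega) h5.symm
      · exact hminL j' (by omega) i (by omega) _ h4 h6 h5
  intro i hi j hj h
  rcases lt_trichotomy i j with h1 | h1 | h1
  · exact absurd h (key i j h1 hj)
  · exact h1
  · exact absurd h.symm (key j i h1 hi)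

theorem root_ne_zero {d : ℕ} (hd : 2 ≤ d) {ω : ℂ} (h : ω ^ d = 1) : ω ≠ 0 := by
  rintro rfl
  rw [zero_pow (by omega)] at h
  exact zero_ne_one h

/-- the points of the orbit are not critical -/
theorem vv_ne_zero {d L k : ℕ} (hd : 2 ≤ d) {ω c₀ : ℂ} (h : Orb d L k ω c₀ c₀) (j : ℕ) :
    vv d c₀ c₀ j ≠ 0 := by
  have h1 : ∀ j < L, vv d c₀ c₀ j ≠ 0 := by
    intro j hj h0
    have h2 : vv d c₀ c₀ (j + 1) = vv d c₀ c₀ 0 := by
      rw [vv_succ, h0, vv_zero, zero_pow (by omega), zero_add]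
    have := h.inj (j + 1) hj 0 (Nat.zero_le _) h2
    omega
  have h2 : vv d c₀ c₀ L ≠ 0 := by
    rw [h.opp]
    exact mul_ne_zero (root_ne_zero hd h.root) (h1 k h.lt)
  have hlt := h.lt
  have hper : ∀ i, vv d c₀ c₀ (L + 1 + i) = vv d c₀ c₀ (k + 1 + i) := by
    intro i
    induction i with
    | zero =>
      rw [add_zero, add_zero, vv_succ, vv_succ, h.opp, mul_pow, h.root, one_mul]
    | succ i ih =>
      rw [← add_assoc, ← add_assoc, vv_succ, ih, vv_succ]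
  induction j using Nat.strong_induction_on with
  | _ j ih =>
    rcases lt_trichotomy j L with h3 | h3 | h3
    · exact h1 j h3
    · rw [h3]
      exact h2
    · have h4 := hper (j - (L + 1))
      rw [show L + 1 + (j - (L + 1)) = j by omega] at h4
      rw [h4]
      exact ih _ (by omega)

theorem vv_contDiff (d j : ℕ) : ContDiff ℂ 1 fun p : ℂ × ℂ => vv d p.1 p.2 j := by
  induction j with
  | zero =>
    simp only [vv_zero]
    exact contDiff_snd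
  | succ j ih =>
    simp only [vv_succ]
    exact (ih.pow d).add contDiff_fst

theorem vv_deriv (d : ℕ) (c v : ℂ) (j : ℕ) : HasDerivAt (fun v => vv d c v j)
    (∏ i ∈ Finset.range j, ((d : ℂ) * vv d c v i ^ (d - 1))) v := by
  induction j with
  | zero =>
    simp only [vv_zero, Finset.range_zero, Finset.prod_empty]
    exact hasDerivAt_id v
  | succ j ih =>
    simp only [vv_succ]
    rw [Finset.prod_range_succ]
    exact ((ih.fun_pow d).add_const c).congr_deriv (by ring)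

/-- persistence of the preperiodic point -/
theorem cont {d L k : ℕ} (hd : 2 ≤ d) {ω c₀ : ℂ} (h : Orb d L k ω c₀ c₀)
    (hmu : 1 < ‖∏ j ∈ Finset.Icc (k + 1) L, ((d : ℂ) * vv d c₀ c₀ j ^ (d - 1))‖) :
    ∃ (ρ C : ℝ) (v : ℂ → ℂ), 0 < ρ ∧ 0 < C ∧ DifferentiableOn ℂ v (ball c₀ ρ) ∧ v c₀ = c₀ ∧
      ∀ c ∈ ball c₀ ρ, ‖v c - c₀‖ ≤ C * ‖c - c₀‖ ∧ Orb d L k ω c (v c) := by
  have hlt := h.lt
  obtain ⟨F, hF⟩ : ∃ F : ℂ × ℂ → ℂ, F = fun p => vv d p.1 p.2 L - ω * vv d p.1 p.2 k := ⟨_, rfl⟩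
  have hFc : ContDiff ℂ 1 F := by
    rw [hF]
    exact (vv_contDiff d L).sub (contDiff_const.mul (vv_contDiff d k))
  have hF0 : F (c₀, c₀) = 0 := by
    rw [hF]
    simp only
    rw [h.opp, sub_self]
  -- the partial derivative
  obtain ⟨a, ha⟩ : ∃ a : ℂ, a = ∏ i ∈ Finset.range L, ((d : ℂ) * vv d c₀ c₀ i ^ (d - 1)) -
    ω * ∏ i ∈ Finset.range k, ((d : ℂ) * vv d c₀ c₀ i ^ (d - 1)) := ⟨_, rfl⟩
  have hdv : HasDerivAt (fun v => F (c₀, v)) a c₀ := by
    rw [hF, ha]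
    exact (vv_deriv d c₀ c₀ L).sub ((vv_deriv d c₀ c₀ k).const_mul ω)
  have hdc : (d : ℂ) ≠ 0 := by
    have : d ≠ 0 := by omega
    exact_mod_cast this
  have ha0 : a ≠ 0 := by
    rw [ha]
    have e1 : ∏ i ∈ Finset.range L, ((d : ℂ) * vv d c₀ c₀ i ^ (d - 1)) =
        (∏ i ∈ Finset.range k, ((d : ℂ) * vv d c₀ c₀ i ^ (d - 1))) *
          ∏ i ∈ Finset.Ico k L, ((d : ℂ) * vv d c₀ c₀ i ^ (d - 1)) :=
      (Finset.prod_range_mul_prod_Ico _ hlt.le).symm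
    have e2 : ∏ i ∈ Finset.Ico k L, ((d : ℂ) * vv d c₀ c₀ i ^ (d - 1)) =
        ((d : ℂ) * vv d c₀ c₀ k ^ (d - 1)) *
          ∏ i ∈ Finset.Ico (k + 1) L, ((d : ℂ) * vv d c₀ c₀ i ^ (d - 1)) :=
      Finset.prod_eq_prod_Ico_succ_bot hlt _
    have e3 : ∏ i ∈ Finset.Icc (k + 1) L, ((d : ℂ) * vv d c₀ c₀ i ^ (d - 1)) =
        (∏ i ∈ Finset.Ico (k + 1) L, ((d : ℂ) * vv d c₀ c₀ i ^ (d - 1))) *
          ((d : ℂ) * vv d c₀ c₀ L ^ (d - 1)) := by
      have : Finset.Icc (k + 1) L = Finset.Ico (k + 1) (L + 1) := by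
        ext i
        simp only [Finset.mem_Icc, Finset.mem_Ico]
        omega
      rw [this, Finset.prod_Ico_succ_top (by omega)]
    have hω : ω * ω ^ (d - 1) = 1 := by
      rw [← pow_succ', show d - 1 + 1 = d by omega, h.root]
    have e4 : ∏ i ∈ Finset.Ico k L, ((d : ℂ) * vv d c₀ c₀ i ^ (d - 1)) =
        ω * ∏ i ∈ Finset.Icc (k + 1) L, ((d : ℂ) * vv d c₀ c₀ i ^ (d - 1)) := by
      rw [e2, e3, h.opp, mul_pow]
      calc (d : ℂ) * vv d c₀ c₀ k ^ (d - 1) *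
          ∏ i ∈ Finset.Ico (k + 1) L, ((d : ℂ) * vv d c₀ c₀ i ^ (d - 1))
          = (ω * ω ^ (d - 1)) * ((d : ℂ) * vv d c₀ c₀ k ^ (d - 1) *
            ∏ i ∈ Finset.Ico (k + 1) L, ((d : ℂ) * vv d c₀ c₀ i ^ (d - 1))) := by
              rw [hω, one_mul]
        _ = _ := by ring
    rw [e1, e4]
    have e5 : (∏ i ∈ Finset.range k, ((d : ℂ) * vv d c₀ c₀ i ^ (d - 1))) *
        (ω * ∏ i ∈ Finset.Icc (k + 1) L, ((d : ℂ) * vv d c₀ c₀ i ^ (d - 1))) -
        ω * ∏ i ∈ Finset.range k, ((d : ℂ) * vv d c₀ c₀ i ^ (d - 1)) =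
        (∏ i ∈ Finset.range k, ((d : ℂ) * vv d c₀ c₀ i ^ (d - 1))) * ω *
          (∏ i ∈ Finset.Icc (k + 1) L, ((d : ℂ) * vv d c₀ c₀ i ^ (d - 1)) - 1) := by ring
    rw [e5]
    refine mul_ne_zero (mul_ne_zero ?_ (root_ne_zero hd h.root)) ?_
    · rw [Finset.prod_ne_zero_iff]
      intro i _
      exact mul_ne_zero hdc (pow_ne_zero _ (vv_ne_zero hd h i))
    · intro h0
      rw [sub_eq_zero] at h0
      rw [h0, norm_one] at hmu
      exact lt_irrefl _ hmu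
  have hcd : ContDiffAt ℂ 1 F (c₀, c₀) := hFc.contDiffAt
  have hinv : (fderiv ℂ F (c₀, c₀) ∘L ContinuousLinearMap.inr ℂ ℂ ℂ).IsInvertible := by
    refine ⟨ContinuousLinearEquiv.unitsEquivAut ℂ (Units.mk0 a ha0), ?_⟩
    have h1 : HasFDerivAt F (fderiv ℂ F (c₀, c₀)) (c₀, c₀) :=
      (hcd.differentiableAt one_ne_zero).hasFDerivAt
    have h2 : HasFDerivAt (fun v : ℂ => ((c₀, v) : ℂ × ℂ)) (ContinuousLinearMap.inr ℂ ℂ ℂ) c₀ :=
      hasFDerivAt_prodMk_right c₀ c₀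
    have h3 : HasFDerivAt (fun v => F (c₀, v))
        (fderiv ℂ F (c₀, c₀) ∘L ContinuousLinearMap.inr ℂ ℂ ℂ) c₀ := h1.comp c₀ h2
    have h4 := h3.hasDerivAt.unique hdv
    ext
    rw [h4]
    simp
  obtain ⟨v, hv⟩ : ∃ v, v = hcd.implicitFunction one_ne_zero hinv := ⟨_, rfl⟩
  have hv0 : v c₀ = c₀ := by
    rw [hv]
    exact hcd.implicitFunction_apply_self one_ne_zero hinv
  have hvd : ContDiffAt ℂ 1 v c₀ := by
    rw [hv]
    exact hcd.contDiffAt_implicitFunction one_ne_zero hinv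
  have hev1 : ∀ᶠ c in nhds c₀, F (c, v c) = 0 := by
    have := hcd.eventually_apply_implicitFunction one_ne_zero hinv
    rw [hF0, ← hv] at this
    exact this
  have hev2 : ∀ᶠ c in nhds c₀, DifferentiableAt ℂ v c := by
    have := hvd.eventually (by simp)
    exact this.mono fun c hc => hc.differentiableAt one_ne_zero
  have hdiff : DifferentiableAt ℂ v c₀ := hvd.differentiableAt one_ne_zero
  obtain ⟨K, hK0, hK⟩ := hdiff.isBigO_sub.exists_pos
  have hev3 : ∀ᶠ c in nhds c₀, ‖v c - c₀‖ ≤ K * ‖c - c₀‖ := by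
    filter_upwards [hK.bound] with c hc
    rwa [hv0] at hc
  -- distinctness
  have hvc : ∀ i, Continuous fun p : ℂ × ℂ => vv d p.1 p.2 i := fun i => (vv_contDiff d i).continuous
  have hev4 : ∀ᶠ p : ℂ × ℂ in nhds (c₀, c₀), ∀ i ∈ Finset.range (L + 1),
      ∀ j ∈ Finset.range (L + 1), i ≠ j → vv d p.1 p.2 i ≠ vv d p.1 p.2 j := by
    rw [Filter.eventually_all_finset]
    intro i hi
    rw [Filter.eventually_all_finset]
    intro j hj
    by_cases hij : i = j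
    · exact Filter.Eventually.of_forall fun p hne => absurd hij hne
    · have h1 : vv d c₀ c₀ i ≠ vv d c₀ c₀ j := fun h2 =>
        hij (h.inj i (by rw [Finset.mem_range] at hi; omega) j
          (by rw [Finset.mem_range] at hj; omega) h2)
      have h2 : ∀ᶠ p : ℂ × ℂ in nhds (c₀, c₀), vv d p.1 p.2 i - vv d p.1 p.2 j ≠ 0 :=
        ((hvc i).sub (hvc j)).continuousAt.eventually_ne (sub_ne_zero.2 h1)
      exact h2.mono fun p hp _ => sub_ne_zero.1 hp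
  have hev5 : ∀ᶠ c in nhds c₀, ∀ i ∈ Finset.range (L + 1),
      ∀ j ∈ Finset.range (L + 1), i ≠ j → vv d c (v c) i ≠ vv d c (v c) j := by
    have ht : Tendsto (fun c => (c, v c)) (nhds c₀) (nhds (c₀, c₀)) := by
      have := (continuousAt_id (x := c₀)).prodMk hdiff.continuousAt
      unfold ContinuousAt at this
      simpa [hv0] using this
    exact ht.eventually hev4
  obtain ⟨ρ, hρ, hall⟩ := Metric.eventually_nhds_iff.1 (hev1.and (hev2.and (hev3.and hev5)))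
  refine ⟨ρ, K, v, hρ, hK0, ?_, hv0, ?_⟩
  · intro c hc
    exact (hall (mem_ball.1 hc)).2.1.differentiableWithinAt
  · intro c hc
    obtain ⟨h1, -, h3, h4⟩ := hall (mem_ball.1 hc)
    refine ⟨h3, hlt, ?_, h.root, ?_⟩
    · intro i hi j hj hij
      by_contra hne
      exact h4 i (by rw [Finset.mem_range]; omega) j (by rw [Finset.mem_range]; omega) hne hij
    · rw [hF] at h1
      exact sub_eq_zero.1 h1

end Pool.Agent.TH312.J2485
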