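import Pool.Agent.TH280.LS.Stm

set_option autoImplicit false

/-! # Local smoothing: the cosine and sine propagators -/

open MeasureTheory Set
open scoped ENNReal

namespace Pool.Agent.TH312.ONE

open Pool.Agent.TH280.LS

/-- Lipschitz symbols of order `-s` with constant `A` -/
def SyK (s A : ℝ) (w : ℝ → ℝ) : Prop := (∀ r, 0 ≤ r → |w r| ≤ A * (1 + r) ^ (-s)) ∧
  ∀ r r', 0 ≤ r → r ≤ r' → |w r - w r'| ≤ A * ((1 + r) ^ (-s - 1) * (r' - r))

lemma SyK.mul {s u A B : ℝ} {w v : ℝ → ℝ} (hu : 0 ≤ u) (hA : 0 ≤ A) (hB : 0 ≤ B)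
    (hw : SyK s A w) (hv : SyK u B v) : SyK (s + u) (2 * A * B) (fun r => w r * v r) := by
  constructor
  · intro r hr
    have h1 := hw.1 r hr
    have h2 := hv.1 r hr
    have p1 : (0:ℝ) < 1 + r := by linarith
    have e1 : (1 + r) ^ (-(s + u)) = (1 + r) ^ (-s) * (1 + r) ^ (-u) := by
      rw [← Real.rpow_add p1]; congr 1; ring
    rw [e1, abs_mul]
    have q1 : 0 ≤ (1 + r) ^ (-s) := Real.rpow_nonneg p1.le _
    have q2 : 0 ≤ (1 + r) ^ (-u) := Real.rpow_nonneg p1.le _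
    calc |w r| * |v r| ≤ (A * (1 + r) ^ (-s)) * (B * (1 + r) ^ (-u)) :=
          mul_le_mul h1 h2 (abs_nonneg _) (by positivity)
      _ ≤ 2 * A * B * ((1 + r) ^ (-s) * (1 + r) ^ (-u)) := by
          have : 0 ≤ A * B * ((1 + r) ^ (-s) * (1 + r) ^ (-u)) := by positivity
          nlinarith
  · intro r r' hr hrr
    have h1 := hw.1 r hr
    have h2 := hw.2 r r' hr hrr
    have h3 := hv.1 r' (hr.trans hrr)
    have h4 := hv.2 r r' hr hrr
    have p1 : (0:ℝ) < 1 + r := by linarith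
    have p2 : (0:ℝ) < 1 + r' := by linarith
    have q1 : 0 ≤ (1 + r) ^ (-s) := Real.rpow_nonneg p1.le _
    have q2 : 0 ≤ (1 + r) ^ (-s - 1) := Real.rpow_nonneg p1.le _
    have q3 : 0 ≤ (1 + r) ^ (-u - 1) := Real.rpow_nonneg p1.le _
    have q5 : 0 ≤ (1 + r') ^ (-u) := Real.rpow_nonneg p2.le _
    have q4 : (1 + r') ^ (-u) ≤ (1 + r) ^ (-u) :=
      Real.rpow_le_rpow_of_nonpos p1 (by linarith) (by linarith)
    have e1 : (1 + r) ^ (-(s + u) - 1) = (1 + r) ^ (-s) * (1 + r) ^ (-u - 1) := by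
      rw [← Real.rpow_add p1]; congr 1; ring
    have e2 : (1 + r) ^ (-(s + u) - 1) = (1 + r) ^ (-s - 1) * (1 + r) ^ (-u) := by
      rw [← Real.rpow_add p1]; congr 1; ring
    have d : w r * v r - w r' * v r' = w r * (v r - v r') + (w r - w r') * v r' := by ring
    have hd : 0 ≤ r' - r := by linarith
    calc |w r * v r - w r' * v r'| ≤ |w r| * |v r - v r'| + |w r - w r'| * |v r'| := by
          rw [d]
          refine (abs_add_le _ _).trans (le_of_eq ?_)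
          rw [abs_mul, abs_mul]
      _ ≤ (A * (1 + r) ^ (-s)) * (B * ((1 + r) ^ (-u - 1) * (r' - r))) +
            (A * ((1 + r) ^ (-s - 1) * (r' - r))) * (B * (1 + r) ^ (-u)) := by
          refine add_le_add ?_ ?_
          · exact mul_le_mul h1 h4 (abs_nonneg _) (by positivity)
          · refine mul_le_mul h2 (h3.trans ?_) (abs_nonneg _) (by positivity)
            exact mul_le_mul_of_nonneg_left q4 hB
      _ = A * B * ((1 + r) ^ (-(s + u) - 1) * (r' - r)) +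
            A * B * ((1 + r) ^ (-(s + u) - 1) * (r' - r)) := by
          nth_rewrite 1 [e1]
          rw [e2]; ring
      _ = 2 * A * B * ((1 + r) ^ (-(s + u) - 1) * (r' - r)) := by ring

lemma SyK.mono {s s' A : ℝ} {w : ℝ → ℝ} (h : s' ≤ s) (hA : 0 ≤ A) (hw : SyK s A w) :
    SyK s' A w := by
  constructor
  · intro r hr
    refine (hw.1 r hr).trans (mul_le_mul_of_nonneg_left ?_ hA)
    exact Real.rpow_le_rpow_of_exponent_le (by linarith) (by linarith)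
  · intro r r' hr hrr
    refine (hw.2 r r' hr hrr).trans (mul_le_mul_of_nonneg_left ?_ hA)
    refine mul_le_mul_of_nonneg_right ?_ (by linarith)
    exact Real.rpow_le_rpow_of_exponent_le (by linarith) (by linarith)

/-- a derivative bound gives the Lipschitz bound -/
lemma syk_of_deriv {s A : ℝ} {w w' : ℝ → ℝ} (hs : -1 ≤ s) (hA : 0 ≤ A)
    (h0 : ∀ r, 0 ≤ r → |w r| ≤ A * (1 + r) ^ (-s)) (hd : ∀ r, HasDerivAt w (w' r) r)
    (h1 : ∀ r, 0 ≤ r → |w' r| ≤ A * (1 + r) ^ (-s - 1)) : SyK s A w := by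
  refine ⟨h0, fun r r' hr hrr => ?_⟩
  have h := Convex.norm_image_sub_le_of_norm_hasDerivWithin_le (f := w) (f' := w')
    (s := Icc r r') (x := r) (y := r') (C := A * (1 + r) ^ (-s - 1))
    (fun x _ => (hd x).hasDerivWithinAt) (fun x hx => ?_) (convex_Icc _ _)
    (left_mem_Icc.2 hrr) (right_mem_Icc.2 hrr)
  · rw [Real.norm_eq_abs, Real.norm_eq_abs, abs_of_nonneg (by linarith : (0:ℝ) ≤ r' - r),
      abs_sub_comm] at h
    calc |w r - w r'| ≤ A * (1 + r) ^ (-s - 1) * (r' - r) := h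
      _ = _ := by ring
  · rw [Real.norm_eq_abs]
    refine (h1 x (hr.trans hx.1)).trans (mul_le_mul_of_nonneg_left ?_ hA)
    exact Real.rpow_le_rpow_of_nonpos (by linarith) (by linarith [hx.1]) (by linarith)

/-- `β = 1 + 4π²r²` -/
noncomputable def be (r : ℝ) : ℝ := 1 + 4 * Real.pi ^ 2 * r ^ 2

lemma be_pos (r : ℝ) : 0 < be r := by unfold be; positivity

lemma be_ge (r : ℝ) : (1 + r) ^ 2 / 2 ≤ be r := by
  unfold be
  have h := Real.pi_gt_three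
  have h2 : (1:ℝ) ≤ 4 * Real.pi ^ 2 := by nlinarith
  nlinarith [sq_nonneg (1 - r), mul_le_mul_of_nonneg_right h2 (sq_nonneg r)]

lemma be_rpow_le {u r : ℝ} (hu : 0 ≤ u) (hr : 0 ≤ r) :
    be r ^ (-(u / 2)) ≤ 2 ^ (u / 2) * (1 + r) ^ (-u) := by
  have p1 : (0:ℝ) < 1 + r := by linarith
  have h1 : be r ^ (-(u / 2)) ≤ ((1 + r) ^ 2 / 2) ^ (-(u / 2)) :=
    Real.rpow_le_rpow_of_nonpos (by positivity) (be_ge r) (by linarith)
  refine h1.trans (le_of_eq ?_)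
  rw [Real.div_rpow (by positivity) (by norm_num), Real.rpow_neg (by norm_num : (0:ℝ) ≤ 2),
    div_inv_eq_mul, mul_comm, ← Real.rpow_natCast, ← Real.rpow_mul p1.le]
  congr 2
  push_cast; ring

lemma syk_be (u : ℝ) (hu : 0 < u) : ∃ A : ℝ, 0 < A ∧ SyK u A (fun r => be r ^ (-(u / 2))) := by
  refine ⟨2 ^ (u / 2) * (1 + u * 8 * Real.pi ^ 2), by positivity, ?_⟩
  refine syk_of_deriv (w' := fun r => (8 * Real.pi ^ 2 * r) * (-(u / 2)) *
    be r ^ (-(u / 2) - 1)) (by linarith) (by positivity) ?_ ?_ ?_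
  · intro r hr
    have h := be_rpow_le hu.le hr
    rw [abs_of_nonneg (Real.rpow_nonneg (be_pos r).le _)]
    refine h.trans ?_
    have p : 0 ≤ (1 + r) ^ (-u) := Real.rpow_nonneg (by linarith) _
    have p2 : (0:ℝ) ≤ 2 ^ (u / 2) * (u * 8 * Real.pi ^ 2) * (1 + r) ^ (-u) := by positivity
    nlinarith
  · intro r
    have h1 : HasDerivAt be (8 * Real.pi ^ 2 * r) r :=
      (((hasDerivAt_pow 2 r).const_mul (4 * Real.pi ^ 2)).const_add 1).congr_deriv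
        (by norm_num; ring)
    exact h1.rpow_const (Or.inl (be_pos r).ne')
  · intro r hr
    have p1 : (0:ℝ) < 1 + r := by linarith
    have h := be_rpow_le (u := u + 2) (by linarith) hr
    have e1 : -((u + 2) / 2) = -(u / 2) - 1 := by ring
    rw [e1] at h
    have e2 : (2:ℝ) ^ ((u + 2) / 2) = 2 ^ (u / 2) * 2 := by
      have : (u + 2) / 2 = u / 2 + 1 := by ring
      rw [this, Real.rpow_add_one (by norm_num)]
    have e3 : (1 + r) ^ (-(u + 2)) * (1 + r) = (1 + r) ^ (-u - 1) := by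
      rw [← Real.rpow_add_one p1.ne']; congr 1; ring
    rw [e2] at h
    have p0 : 0 ≤ be r ^ (-(u / 2) - 1) := Real.rpow_nonneg (be_pos r).le _
    have p3 : 0 ≤ (1 + r) ^ (-(u + 2)) := Real.rpow_nonneg p1.le _
    have p4 : 0 ≤ (1 + r) ^ (-u - 1) := Real.rpow_nonneg p1.le _
    rw [abs_mul, abs_of_nonneg p0, abs_mul, abs_neg, abs_of_nonneg (by positivity : 0 ≤ u / 2),
      abs_of_nonneg (by positivity)]
    calc 8 * Real.pi ^ 2 * r * (u / 2) * be r ^ (-(u / 2) - 1)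
        ≤ 8 * Real.pi ^ 2 * (1 + r) * (u / 2) * (2 ^ (u / 2) * 2 * (1 + r) ^ (-(u + 2))) := by
          refine mul_le_mul ?_ h p0 (by positivity)
          have : 0 ≤ 8 * Real.pi ^ 2 * (u / 2) := by positivity
          nlinarith
      _ = 2 ^ (u / 2) * (u * 8 * Real.pi ^ 2) * ((1 + r) ^ (-(u + 2)) * (1 + r)) := by ring
      _ = 2 ^ (u / 2) * (u * 8 * Real.pi ^ 2) * (1 + r) ^ (-u - 1) := by rw [e3]
      _ ≤ 2 ^ (u / 2) * (1 + u * 8 * Real.pi ^ 2) * (1 + r) ^ (-u - 1) := by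
          have : (0:ℝ) ≤ 2 ^ (u / 2) * (1 + r) ^ (-u - 1) := by positivity
          nlinarith

lemma syk_exp (τ : ℝ) (h0 : 0 < τ) (h1 : τ ≤ 1) : SyK 0 4 (fun r => Real.exp (-(τ * r ^ 2))) := by
  refine syk_of_deriv (w' := fun r => Real.exp (-(τ * r ^ 2)) * (-(τ * (2 * r)))) (by norm_num)
    (by norm_num) ?_ ?_ ?_
  · intro r hr
    have : Real.exp (-(τ * r ^ 2)) ≤ 1 := Real.exp_le_one_iff.2 (by nlinarith [sq_nonneg r])
    rw [abs_of_nonneg (Real.exp_nonneg _)]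
    simp only [neg_zero, Real.rpow_zero, mul_one]
    linarith
  · intro r
    have h2 : HasDerivAt (fun r : ℝ => -(τ * r ^ 2)) (-(τ * (2 * r))) r := by
      exact ((hasDerivAt_pow 2 r).const_mul τ).neg.congr_deriv (by norm_num)
    exact h2.exp
  · intro r hr
    have p1 : (0:ℝ) < 1 + r := by linarith
    have e0 : (-(0:ℝ) - 1) = -1 := by norm_num
    rw [e0, Real.rpow_neg_one, abs_mul, abs_neg, abs_of_nonneg (Real.exp_nonneg _),
      abs_of_nonneg (by positivity), ← div_eq_mul_inv, le_div_iff₀ p1]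
    have hE : Real.exp (-(τ * r ^ 2)) * (1 + τ * r ^ 2) ≤ 1 := by
      have h3 := Real.add_one_le_exp (τ * r ^ 2)
      have h4 : Real.exp (-(τ * r ^ 2)) * Real.exp (τ * r ^ 2) = 1 := by
        rw [← Real.exp_add]; simp
      calc Real.exp (-(τ * r ^ 2)) * (1 + τ * r ^ 2)
          ≤ Real.exp (-(τ * r ^ 2)) * Real.exp (τ * r ^ 2) :=
            mul_le_mul_of_nonneg_left (by linarith) (Real.exp_nonneg _)
        _ = 1 := h4
    have h5 : τ * (2 * r) * (1 + r) ≤ 4 * (1 + τ * r ^ 2) := by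
      have h6 : τ * (2 * r) ≤ 1 + τ * r ^ 2 := by nlinarith [sq_nonneg (1 - r), mul_nonneg h0.le (sq_nonneg (1 - r))]
      nlinarith
    calc Real.exp (-(τ * r ^ 2)) * (τ * (2 * r)) * (1 + r)
        = Real.exp (-(τ * r ^ 2)) * (τ * (2 * r) * (1 + r)) := by ring
      _ ≤ Real.exp (-(τ * r ^ 2)) * (4 * (1 + τ * r ^ 2)) :=
          mul_le_mul_of_nonneg_left h5 (Real.exp_nonneg _)
      _ ≤ 4 := by linarith

lemma syk_lin : SyK (-1) (2 * Real.pi) (fun r => 2 * Real.pi * r) := by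
  constructor
  · intro r hr
    rw [abs_of_nonneg (by positivity)]
    simp only [neg_neg, Real.rpow_one]
    nlinarith [Real.pi_pos]
  · intro r r' hr hrr
    have e0 : (-(-1:ℝ) - 1) = 0 := by norm_num
    rw [e0, Real.rpow_zero, one_mul, ← mul_sub, abs_mul, abs_of_nonneg (by positivity),
      abs_sub_comm, abs_of_nonneg (by linarith : (0:ℝ) ≤ r' - r)]

/-! ### the symbols -/

/-- `E β^{-u/2}` -/
noncomputable def wa (τ u r : ℝ) : ℝ := be r ^ (-(u / 2)) * Real.exp (-(τ * r ^ 2))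

lemma syk_wa (u : ℝ) (hu : 0 < u) : ∃ A : ℝ, 0 < A ∧ ∀ τ : ℝ, 0 < τ → τ ≤ 1 →
    SyK u A (wa τ u) := by
  obtain ⟨A, hA, h⟩ := syk_be u hu
  refine ⟨2 * A * 4, by positivity, fun τ h0 h1 => ?_⟩
  have := h.mul le_rfl hA.le (by norm_num) (syk_exp τ h0 h1)
  rwa [add_zero] at this

lemma syk_wb (s : ℝ) (hs : 0 < s) : ∃ A : ℝ, 0 < A ∧ ∀ τ : ℝ, 0 < τ → τ ≤ 1 →
    SyK s A (fun r => 2 * Real.pi * r * wa τ (s + 1) r) := by
  obtain ⟨A, hA, h⟩ := syk_wa (s + 1) (by linarith)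
  refine ⟨2 * (2 * Real.pi) * A, by positivity, fun τ h0 h1 => ?_⟩
  have := syk_lin.mul (by linarith) (by positivity) hA.le (h τ h0 h1)
  have e : -1 + (s + 1) = s := by ring
  rwa [e] at this

lemma continuous_ra (a : ℝ) : Continuous (ra a) := by unfold ra; fun_prop

lemma ra_nonneg (a ξ : ℝ) : 0 ≤ ra a ξ := Real.sqrt_nonneg _

lemma ra_sq (a ξ : ℝ) : ra a ξ ^ 2 = ξ ^ 2 + a ^ 2 := Real.sq_sqrt (by positivity)

lemma ra_pos {a : ℝ} (ha : 0 < a) (ξ : ℝ) : 0 < ra a ξ := Real.sqrt_pos.2 (by positivity)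

lemma continuous_be : Continuous be := by unfold be; fun_prop

lemma continuous_wa (τ u : ℝ) : Continuous (wa τ u) := by
  unfold wa
  refine Continuous.mul ?_ (by fun_prop)
  exact continuous_be.rpow_const (fun x => Or.inl (be_pos x).ne')

/-- a bounded continuous function times the Gaussian factor is integrable -/
lemma integrable_symb {a τ K : ℝ} (hτ : 0 < τ) {v w : ℝ → ℝ} (hv : Continuous v)
    (hK : ∀ r, 0 ≤ r → |v r| ≤ K) (hw : ∀ r, w r = v r * Real.exp (-(τ * r ^ 2))) :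
    Integrable (fun ξ => w (ra a ξ)) := by
  have hg : Integrable (fun ξ : ℝ => K * Real.exp (-τ * ξ ^ 2)) :=
    (integrable_exp_neg_mul_sq hτ).const_mul K
  have hc : Continuous w := by
    have : w = fun r => v r * Real.exp (-(τ * r ^ 2)) := funext hw
    rw [this]; fun_prop
  refine hg.mono' (hc.comp (continuous_ra a)).aestronglyMeasurable
    (Filter.Eventually.of_forall fun ξ => ?_)
  rw [Real.norm_eq_abs, hw, abs_mul, abs_of_nonneg (Real.exp_nonneg _), ra_sq]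
  have h1 := hK _ (ra_nonneg a ξ)
  have h2 : Real.exp (-(τ * (ξ ^ 2 + a ^ 2))) ≤ Real.exp (-τ * ξ ^ 2) := by
    apply Real.exp_le_exp.2
    nlinarith [mul_nonneg hτ.le (sq_nonneg a)]
  exact mul_le_mul h1 h2 (Real.exp_nonneg _) ((abs_nonneg _).trans h1)

lemma integrable_wa {a τ u : ℝ} (hτ : 0 < τ) (hu : 0 < u) :
    Integrable (fun ξ => wa τ u (ra a ξ)) := by
  refine integrable_symb (v := fun r => be r ^ (-(u / 2))) (K := 1) hτ
    (continuous_be.rpow_const (fun x => Or.inl (be_pos x).ne')) (fun r hr => ?_) (fun r => rfl)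
  rw [abs_of_nonneg (Real.rpow_nonneg (be_pos r).le _)]
  refine Real.rpow_le_one_of_one_le_of_nonpos ?_ (by linarith)
  unfold be
  have : 0 ≤ 4 * Real.pi ^ 2 * r ^ 2 := by positivity
  linarith

lemma integrable_wb {a τ s : ℝ} (hτ : 0 < τ) (hs : 0 < s) :
    Integrable (fun ξ => 2 * Real.pi * ra a ξ * wa τ (s + 1) (ra a ξ)) := by
  obtain ⟨A, hA, h⟩ := syk_be (s + 1) (by linarith)
  have h2 := syk_lin.mul (by linarith) (by positivity) hA.le h
  have e : -1 + (s + 1) = s := by ring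
  rw [e] at h2
  refine integrable_symb (v := fun r => 2 * Real.pi * r * be r ^ (-((s + 1) / 2)))
    (K := 2 * (2 * Real.pi) * A) (w := fun r => 2 * Real.pi * r * wa τ (s + 1) r) hτ
    (Continuous.mul (by fun_prop)
      (continuous_be.rpow_const (fun x => Or.inl (be_pos x).ne'))) (fun r hr => ?_)
    (fun r => by unfold wa; ring)
  refine (h2.1 r hr).trans ?_
  have h3 : (1 + r) ^ (-s) ≤ 1 := Real.rpow_le_one_of_one_le_of_nonpos (by linarith) (by linarith)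
  have h4 : 0 ≤ 2 * (2 * Real.pi) * A := by positivity
  nlinarith

/-! ### the estimate for symbols with a constant -/

lemma sum_K (h : S_SUM) (s A : ℝ) (hs : 0 < s) (hA : 0 < A) : ∃ C : ℝ, 0 < C ∧
    ∀ (a : ℝ) (w : ℝ → ℝ) (G : ℝ → ℂ), 0 < a → SyK s A w →
    Integrable (fun ξ => w (ra a ξ)) → Integrable G →
    ∫⁻ t in Icc (-2 : ℝ) 2, ∫⁻ x : ℝ, ‖Vx a (fun ξ => ((w (ra a ξ) : ℝ) : ℂ)) G t x‖ₑ ^ 4 ≤
      ENNReal.ofReal C * ∫⁻ x : ℝ, ‖G x‖ₑ ^ 4 := by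
  obtain ⟨C, hC, h1⟩ := h s hs
  refine ⟨A ^ 4 * C, by positivity, fun a w G ha hw hi hG => ?_⟩
  have hsy : Sy s (fun r => ((w r / A : ℝ) : ℂ)) := by
    constructor
    · intro r hr
      rw [Complex.norm_real, Real.norm_eq_abs, abs_div, abs_of_pos hA, div_le_iff₀ hA, mul_comm]
      exact hw.1 r hr
    · intro r r' hr hrr
      rw [← Complex.ofReal_sub, Complex.norm_real, Real.norm_eq_abs, ← sub_div, abs_div,
        abs_of_pos hA, div_le_iff₀ hA, mul_comm]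
      exact hw.2 r r' hr hrr
  have h2 := h1 a (fun r => ((w r / A : ℝ) : ℂ)) G ha hsy (hi.div_const A).ofReal hG
  have e : ∀ t x, Vx a (fun ξ => ((w (ra a ξ) : ℝ) : ℂ)) G t x =
      (A : ℂ) * Vx a (fun ξ => (fun r => ((w r / A : ℝ) : ℂ)) (ra a ξ)) G t x := by
    intro t x
    unfold Vx
    rw [← integral_const_mul]
    congr 1
    funext ξ
    have hA' : (A : ℂ) ≠ 0 := by exact_mod_cast hA.ne'
    push_cast
    field_simp
  have e2 : ‖(A : ℂ)‖ₑ = ENNReal.ofReal A := by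
    rw [← ofReal_norm, Complex.norm_real, Real.norm_eq_abs, abs_of_pos hA]
  simp_rw [e, enorm_mul, mul_pow, e2]
  have h3 : ∀ t, ∫⁻ x : ℝ, ENNReal.ofReal A ^ 4 *
      ‖Vx a (fun ξ => ((w (ra a ξ) / A : ℝ) : ℂ)) G t x‖ₑ ^ 4 =
      ENNReal.ofReal A ^ 4 * ∫⁻ x : ℝ,
      ‖Vx a (fun ξ => ((w (ra a ξ) / A : ℝ) : ℂ)) G t x‖ₑ ^ 4 :=
    fun t => lintegral_const_mul' _ _ (by finiteness)
  simp_rw [h3]
  rw [lintegral_const_mul' _ _ (by finiteness), ENNReal.ofReal_mul (by positivity),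
    ENNReal.ofReal_pow hA.le, mul_assoc]
  gcongr

/-! ### regularity of the propagator -/

lemma integrable_chi {χ G : ℝ → ℂ} (hχ : Integrable χ) (hG : Integrable G) :
    Integrable (fun ξ => χ ξ * ft G ξ) := by
  refine (hχ.norm.mul_const (∫ x, ‖G x‖)).mono'
    (hχ.aestronglyMeasurable.mul (continuous_ft hG).aestronglyMeasurable)
    (Filter.Eventually.of_forall fun ξ => ?_)
  rw [norm_mul]
  exact mul_le_mul_of_nonneg_left (norm_ft_le G ξ) (norm_nonneg _)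

lemma cont_Vx (a : ℝ) {χ G : ℝ → ℂ} (hχ : Integrable χ) (hG : Integrable G) :
    Continuous (fun z : ℝ × ℝ => Vx a χ G z.1 z.2) := by
  have hq := integrable_chi hχ hG
  refine continuous_of_dominated (bound := fun ξ => ‖χ ξ * ft G ξ‖) ?_ ?_ hq.norm ?_
  · intro z
    refine AEStronglyMeasurable.mul ?_ (AEStronglyMeasurable.mul ?_ hq.aestronglyMeasurable)
    · exact (continuous_e.comp (by fun_prop)).aestronglyMeasurable
    · have := continuous_ra a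
      exact (continuous_e.comp (by fun_prop)).aestronglyMeasurable
  · intro z
    refine Filter.Eventually.of_forall fun ξ => ?_
    rw [norm_mul, norm_mul, norm_e, norm_e, one_mul, one_mul]
  · refine Filter.Eventually.of_forall fun ξ => ?_
    have h1 : Continuous fun z : ℝ × ℝ => e (z.2 * ξ) := continuous_e.comp (by fun_prop)
    have h2 : Continuous fun z : ℝ × ℝ => e (z.1 * ra a ξ) := continuous_e.comp (by fun_prop)
    fun_prop

lemma integrable_Vx (a t x : ℝ) {χ G : ℝ → ℂ} (hχ : Integrable χ) (hG : Integrable G) :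
    Integrable (fun ξ => e (x * ξ) * (e (t * ra a ξ) * (χ ξ * ft G ξ))) := by
  have hq := integrable_chi hχ hG
  refine hq.mono ?_ (Filter.Eventually.of_forall fun ξ => ?_)
  · refine AEStronglyMeasurable.mul ?_ (AEStronglyMeasurable.mul ?_ hq.aestronglyMeasurable)
    · exact (continuous_e.comp (by fun_prop)).aestronglyMeasurable
    · have := continuous_ra a
      exact (continuous_e.comp (by fun_prop)).aestronglyMeasurable
  · rw [norm_mul, norm_mul, norm_e, norm_e, one_mul, one_mul]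

/-! ### the propagators -/

lemma Ux_mc {a τ s : ℝ} (t x : ℝ) (hτ : 0 < τ) (hs : 0 < s) {G : ℝ → ℂ}
    (hG : Integrable G) : Ux a (mc s τ t) G x = (1 / 2 : ℂ) *
      (Vx a (fun ξ => ((wa τ s (ra a ξ) : ℝ) : ℂ)) G t x +
        Vx a (fun ξ => ((wa τ s (ra a ξ) : ℝ) : ℂ)) G (-t) x) := by
  have hi : Integrable (fun ξ => ((wa τ s (ra a ξ) : ℝ) : ℂ)) := (integrable_wa hτ hs).ofReal
  unfold Ux Vx
  rw [← integral_add (integrable_Vx a t x hi hG) (integrable_Vx a (-t) x hi hG),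
    ← integral_const_mul]
  congr 1
  funext ξ
  have h1 : ((mc s τ t (ra a ξ) : ℝ) : ℂ) = (1 / 2 : ℂ) *
      (e (t * ra a ξ) + e (-t * ra a ξ)) * ((wa τ s (ra a ξ) : ℝ) : ℂ) := by
    have h2 := e_cos (t * ra a ξ)
    rw [neg_mul, h2]
    unfold mc wa be
    push_cast
    ring
  rw [h1]
  ring

lemma int_e {t r : ℝ} (hr : 0 < r) : ∫ t' in (-t)..t, e (t' * r) =
    2 * ((Real.sin (2 * Real.pi * (t * r)) / (2 * Real.pi * r) : ℝ) : ℂ) := by
  have hc : (2 * Real.pi * r : ℂ) * Complex.I ≠ 0 := by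
    have h1 : (Real.pi : ℂ) ≠ 0 := by exact_mod_cast Real.pi_ne_zero
    have h2 : (r : ℂ) ≠ 0 := by exact_mod_cast hr.ne'
    simp [h1, h2]
  have h3 : (fun t' : ℝ => e (t' * r)) =
      fun t' : ℝ => Complex.exp ((2 * Real.pi * r : ℂ) * Complex.I * t') := by
    funext t'
    unfold e
    congr 1
    push_cast; ring
  rw [h3, integral_exp_mul_complex hc]
  have h4 : Complex.exp ((2 * Real.pi * r : ℂ) * Complex.I * t) = e (t * r) := (congrFun h3 t).symm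
  have h5 : Complex.exp ((2 * Real.pi * r : ℂ) * Complex.I * ((-t : ℝ) : ℂ)) = e (-(t * r)) := by
    have := (congrFun h3 (-t)).symm
    rw [neg_mul] at this
    exact this
  rw [h4, h5, e_sin]
  rw [div_eq_iff hc]
  have h1 : (Real.pi : ℂ) ≠ 0 := by exact_mod_cast Real.pi_ne_zero
  have h2 : (r : ℂ) ≠ 0 := by exact_mod_cast hr.ne'
  push_cast
  field_simp

lemma swap_V3 {a τ u : ℝ} (t x : ℝ) (ht : 0 ≤ t) (ha : 0 < a) (hτ : 0 < τ) (hu : 0 < u)
    {G : ℝ → ℂ} (hG : Integrable G) :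
    ∫ t' in (-t)..t, Vx a (fun ξ => ((wa τ u (ra a ξ) : ℝ) : ℂ)) G t' x =
      ∫ ξ, e (x * ξ) * (2 * ((Real.sin (2 * Real.pi * (t * ra a ξ)) /
        (2 * Real.pi * ra a ξ) : ℝ) : ℂ) * (((wa τ u (ra a ξ) : ℝ) : ℂ) * ft G ξ)) := by
  have hi : Integrable (fun ξ => ((wa τ u (ra a ξ) : ℝ) : ℂ)) := (integrable_wa hτ hu).ofReal
  have hq := integrable_chi hi hG
  have hle : -t ≤ t := by linarith
  rw [intervalIntegral.integral_of_le hle]
  unfold Vx
  rw [integral_integral_swap (f := fun t' ξ => e (x * ξ) * (e (t' * ra a ξ) *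
    (((wa τ u (ra a ξ) : ℝ) : ℂ) * ft G ξ)))]
  · congr 1
    funext ξ
    rw [integral_const_mul]
    congr 1
    rw [integral_mul_const]
    congr 1
    rw [← intervalIntegral.integral_of_le hle, int_e (ra_pos ha ξ)]
  · have h1 : Integrable (fun z : ℝ × ℝ => (1 : ℂ) * (((wa τ u (ra a z.2) : ℝ) : ℂ) * ft G z.2))
        ((volume.restrict (Ioc (-t) t)).prod volume) :=
      Integrable.mul_prod (integrable_const (1 : ℂ)) hq
    refine h1.mono ?_ (Filter.Eventually.of_forall fun z => ?_)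
    · have hr := continuous_ra a
      refine AEStronglyMeasurable.mul ?_ (AEStronglyMeasurable.mul ?_ ?_)
      · exact (continuous_e.comp (by fun_prop : Continuous fun z : ℝ × ℝ => x * z.2)).aestronglyMeasurable
      · exact (continuous_e.comp
          (by fun_prop : Continuous fun z : ℝ × ℝ => z.1 * ra a z.2)).aestronglyMeasurable
      · exact hq.aestronglyMeasurable.comp_snd
    · simp only [Function.uncurry]
      rw [norm_mul, norm_mul, norm_e, norm_e, one_mul, one_mul, one_mul]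

lemma Ux_ms {a τ s : ℝ} (t x : ℝ) (ht : 0 ≤ t) (ha : 0 < a) (hτ : 0 < τ) (hs : 0 < s)
    {G : ℝ → ℂ} (hG : Integrable G) : Ux a (ms s τ t) G x = (1 / (2 * Complex.I) : ℂ) *
      (Vx a (fun ξ => ((2 * Real.pi * ra a ξ * wa τ (s + 1) (ra a ξ) : ℝ) : ℂ)) G t x -
        Vx a (fun ξ => ((2 * Real.pi * ra a ξ * wa τ (s + 1) (ra a ξ) : ℝ) : ℂ)) G (-t) x) +
      (1 / 2 : ℂ) * ∫ t' in (-t)..t,
        Vx a (fun ξ => ((wa τ (s + 1) (ra a ξ) : ℝ) : ℂ)) G t' x := by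
  have hi : Integrable (fun ξ => ((2 * Real.pi * ra a ξ * wa τ (s + 1) (ra a ξ) : ℝ) : ℂ)) :=
    (integrable_wb hτ hs).ofReal
  have hi3 : Integrable (fun ξ => ((wa τ (s + 1) (ra a ξ) : ℝ) : ℂ)) :=
    (integrable_wa hτ (by linarith)).ofReal
  rw [swap_V3 t x ht ha hτ (by linarith) hG]
  unfold Ux Vx
  rw [← integral_sub (integrable_Vx a t x hi hG) (integrable_Vx a (-t) x hi hG),
    ← integral_const_mul, ← integral_const_mul, ← integral_add]
  · congr 1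
    funext ξ
    have hr := ra_pos ha ξ
    have h1 : ms s τ t (ra a ξ) = Real.sin (2 * Real.pi * (t * ra a ξ)) *
        (2 * Real.pi * ra a ξ * wa τ (s + 1) (ra a ξ)) +
        Real.sin (2 * Real.pi * (t * ra a ξ)) / (2 * Real.pi * ra a ξ) *
          wa τ (s + 1) (ra a ξ) := by
      have h2 : (1 + 4 * Real.pi ^ 2 * ra a ξ ^ 2) ^ ((1 - s) / 2) =
          be (ra a ξ) * be (ra a ξ) ^ (-((s + 1) / 2)) := by
        change be (ra a ξ) ^ ((1 - s) / 2) = _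
        have h0 : (1 - s) / 2 = 1 + -((s + 1) / 2) := by ring
        rw [h0, Real.rpow_add (be_pos _), Real.rpow_one]
      unfold ms wa
      rw [h2]
      have hpi := Real.pi_pos
      have h3 : be (ra a ξ) = 1 + 4 * Real.pi ^ 2 * ra a ξ ^ 2 := rfl
      rw [h3]
      field_simp
      ring
    have h4 := e_sin (t * ra a ξ)
    have h5 : ((Real.sin (2 * Real.pi * (t * ra a ξ)) : ℝ) : ℂ) =
        1 / (2 * Complex.I) * (e (t * ra a ξ) - e (-t * ra a ξ)) := by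
      rw [neg_mul, h4]
      have := Complex.I_ne_zero
      field_simp
    rw [h1, Complex.ofReal_add, Complex.ofReal_mul, h5]
    push_cast
    ring
  · exact ((integrable_Vx a t x hi hG).sub (integrable_Vx a (-t) x hi hG)).const_mul _
  · refine Integrable.const_mul ?_ _
    have hq := integrable_chi hi3 hG
    refine (hq.norm.const_mul (2 * t)).mono' ?_ (Filter.Eventually.of_forall fun ξ => ?_)
    · refine AEStronglyMeasurable.mul ?_ (AEStronglyMeasurable.mul ?_ hq.aestronglyMeasurable)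
      · exact (continuous_e.comp (by fun_prop)).aestronglyMeasurable
      · have hr := (continuous_ra a).measurable
        have h1 : Measurable (fun ξ => Real.sin (2 * Real.pi * (t * ra a ξ)) /
            (2 * Real.pi * ra a ξ)) := by fun_prop
        exact ((Complex.measurable_ofReal.comp h1).const_mul 2).aestronglyMeasurable
    · rw [norm_mul, norm_e, one_mul, norm_mul]
      refine mul_le_mul_of_nonneg_right ?_ (norm_nonneg _)
      rw [norm_mul, Complex.norm_real, Real.norm_eq_abs, abs_div,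
        abs_of_pos (by have := ra_pos ha ξ; positivity : 0 < 2 * Real.pi * ra a ξ)]
      have h2 : |Real.sin (2 * Real.pi * (t * ra a ξ))| ≤ 2 * Real.pi * (t * ra a ξ) := by
        have h0 : |Real.sin (2 * Real.pi * (t * ra a ξ))| ≤ |2 * Real.pi * (t * ra a ξ)| :=
          Real.abs_sin_le_abs
        have hr := ra_pos ha ξ
        rwa [abs_of_nonneg (by positivity : 0 ≤ 2 * Real.pi * (t * ra a ξ))] at h0
      have h3 : (‖(2 : ℂ)‖ : ℝ) = 2 := by simp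
      rw [h3]
      refine mul_le_mul_of_nonneg_left ?_ (by norm_num)
      rw [div_le_iff₀ (by have := ra_pos ha ξ; positivity)]
      refine h2.trans (le_of_eq (by ring))

/-! ### auxiliary inequalities -/

lemma pow4_two (u v : ℂ) : ‖(1 / 2 : ℂ) * (u + v)‖ₑ ^ 4 ≤ ‖u‖ₑ ^ 4 + ‖v‖ₑ ^ 4 := by
  have h : ‖(1 / 2 : ℂ) * (u + v)‖ ^ 4 ≤ ‖u‖ ^ 4 + ‖v‖ ^ 4 := by
    have h1 : ‖(1 / 2 : ℂ) * (u + v)‖ ≤ (1 / 2) * (‖u‖ + ‖v‖) := by
      rw [norm_mul]
      have : ‖(1 / 2 : ℂ)‖ = 1 / 2 := by simp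
      rw [this]
      exact mul_le_mul_of_nonneg_left (norm_add_le _ _) (by norm_num)
    have h2 := pow_le_pow_left₀ (norm_nonneg _) h1 4
    have h3 : ((1 / 2) * (‖u‖ + ‖v‖)) ^ 4 ≤ ‖u‖ ^ 4 + ‖v‖ ^ 4 := by
      have := add_pow_le (norm_nonneg u) (norm_nonneg v) 4
      have p := pow_nonneg (norm_nonneg u) 4
      have p' := pow_nonneg (norm_nonneg v) 4
      rw [mul_pow]
      norm_num at this ⊢
      linarith
    exact h2.trans h3
  have h' : ‖(1 / 2 : ℂ) * (u + v)‖₊ ^ 4 ≤ ‖u‖₊ ^ 4 + ‖v‖₊ ^ 4 := by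
    rw [← NNReal.coe_le_coe]; push_cast; exact h
  simp only [enorm_eq_nnnorm]
  exact_mod_cast h'

lemma pow4_three (u v w : ℂ) : ‖(1 / (2 * Complex.I) : ℂ) * (u - v) + (1 / 2 : ℂ) * w‖ₑ ^ 4 ≤
    16 * (‖u‖ₑ ^ 4 + ‖v‖ₑ ^ 4 + ‖w‖ₑ ^ 4) := by
  have h : ‖(1 / (2 * Complex.I) : ℂ) * (u - v) + (1 / 2 : ℂ) * w‖ ^ 4 ≤
      16 * (‖u‖ ^ 4 + ‖v‖ ^ 4 + ‖w‖ ^ 4) := by
    have h1 : ‖(1 / (2 * Complex.I) : ℂ) * (u - v) + (1 / 2 : ℂ) * w‖ ≤
        (1 / 2) * (‖u‖ + ‖v‖ + ‖w‖) := by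
      refine (norm_add_le _ _).trans ?_
      rw [norm_mul, norm_mul]
      have e1 : ‖(1 / 2 : ℂ)‖ = 1 / 2 := by simp
      have e2 : ‖(1 / (2 * Complex.I) : ℂ)‖ = 1 / 2 := by simp
      rw [e1, e2]
      have := norm_sub_le u v
      linarith
    have h2 := pow_le_pow_left₀ (norm_nonneg _) h1 4
    refine h2.trans ?_
    have a1 := add_pow_le (add_nonneg (norm_nonneg u) (norm_nonneg v)) (norm_nonneg w) 4
    have a2 := add_pow_le (norm_nonneg u) (norm_nonneg v) 4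
    have p := pow_nonneg (norm_nonneg u) 4
    have p' := pow_nonneg (norm_nonneg v) 4
    have p'' := pow_nonneg (norm_nonneg w) 4
    rw [mul_pow]
    norm_num at a1 a2 ⊢
    linarith
  have h' : ‖(1 / (2 * Complex.I) : ℂ) * (u - v) + (1 / 2 : ℂ) * w‖₊ ^ 4 ≤
      16 * (‖u‖₊ ^ 4 + ‖v‖₊ ^ 4 + ‖w‖₊ ^ 4) := by
    rw [← NNReal.coe_le_coe]; push_cast; exact h
  simp only [enorm_eq_nnnorm]
  exact_mod_cast h'

lemma holder4 (f : ℝ → ℝ≥0∞) (hf : Measurable f) :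
    (∫⁻ t in Icc (-2 : ℝ) 2, f t) ^ 4 ≤ 64 * ∫⁻ t in Icc (-2 : ℝ) 2, f t ^ 4 := by
  have hpq : Real.HolderConjugate 4 (4 / 3) := by
    rw [Real.holderConjugate_iff]; norm_num
  have h := ENNReal.lintegral_mul_le_Lp_mul_Lq (volume.restrict (Icc (-2 : ℝ) 2)) hpq
    (f := f) (g := fun _ => 1) hf.aemeasurable aemeasurable_const
  simp only [Pi.mul_apply, mul_one, ENNReal.one_rpow, lintegral_const, Measure.restrict_apply,
    MeasurableSet.univ, univ_inter, Real.volume_Icc, one_mul] at h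
  have h2 := pow_le_pow_left' h 4
  refine h2.trans (le_of_eq ?_)
  have e1 : ∀ z : ℝ≥0∞, z ^ (4 : ℝ) = z ^ 4 := fun z => by
    rw [← ENNReal.rpow_natCast]; norm_num
  have e2 : ENNReal.ofReal (2 - -2) = 4 := by norm_num
  simp_rw [e1]
  rw [mul_pow, ← ENNReal.rpow_natCast, ← ENNReal.rpow_natCast, ← ENNReal.rpow_mul,
    ← ENNReal.rpow_mul, mul_comm, e2]
  norm_num

lemma neg_le (f : ℝ → ℝ≥0∞) :
    ∫⁻ t in Icc (1 : ℝ) 2, f (-t) ≤ ∫⁻ t in Icc (-2 : ℝ) 2, f t := by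
  have h1 : ∫⁻ t in Icc (-2 : ℝ) 2, f (-t) = ∫⁻ t in Icc (-2 : ℝ) 2, f t := by
    have := (Measure.measurePreserving_neg (volume : Measure ℝ)).setLIntegral_comp_preimage_emb
      (MeasurableEquiv.neg ℝ).measurableEmbedding f (Icc (-2 : ℝ) 2)
    rw [← this]
    congr 2
    ext x
    simp only [mem_preimage, mem_Icc]
    constructor <;> rintro ⟨h1, h2⟩ <;> constructor <;> linarith
  rw [← h1]
  exact lintegral_mono_set (Icc_subset_Icc (by norm_num) le_rfl)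

/-! ### assembly -/

lemma cos_part {C a τ s : ℝ} {G : ℝ → ℂ} (hτ : 0 < τ) (hs : 0 < s) (hG : Integrable G)
    (h : ∫⁻ t in Icc (-2 : ℝ) 2, ∫⁻ x : ℝ,
      ‖Vx a (fun ξ => ((wa τ s (ra a ξ) : ℝ) : ℂ)) G t x‖ₑ ^ 4 ≤
        ENNReal.ofReal C * ∫⁻ x : ℝ, ‖G x‖ₑ ^ 4) :
    ∫⁻ t in Icc (1 : ℝ) 2, ∫⁻ x : ℝ, ‖Ux a (mc s τ t) G x‖ₑ ^ 4 ≤
      (ENNReal.ofReal C + ENNReal.ofReal C) * ∫⁻ x : ℝ, ‖G x‖ₑ ^ 4 := by
  have hi : Integrable (fun ξ => ((wa τ s (ra a ξ) : ℝ) : ℂ)) := (integrable_wa hτ hs).ofReal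
  obtain ⟨V, hV⟩ : ∃ V, V = fun t x => Vx a (fun ξ => ((wa τ s (ra a ξ) : ℝ) : ℂ)) G t x :=
    ⟨_, rfl⟩
  have hc : Continuous (fun z : ℝ × ℝ => V z.1 z.2) := by rw [hV]; exact cont_Vx a hi hG
  have hU : ∀ t x, Ux a (mc s τ t) G x = (1 / 2 : ℂ) * (V t x + V (-t) x) := by
    intro t x; rw [hV]; exact Ux_mc t x hτ hs hG
  have hV' : ∀ t x, Vx a (fun ξ => ((wa τ s (ra a ξ) : ℝ) : ℂ)) G t x = V t x := by
    intro t x; rw [hV]
  simp_rw [hV'] at h
  have hm : Measurable (fun z : ℝ × ℝ => ‖V z.1 z.2‖ₑ ^ 4) := by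
    have := hc.measurable; fun_prop
  have hm2 : Measurable (fun t => ∫⁻ x : ℝ, ‖V t x‖ₑ ^ 4) := hm.lintegral_prod_right'
  have hmx : ∀ t, Measurable (fun x => ‖V t x‖ₑ ^ 4) := by
    intro t
    have h2 : Continuous (fun x => V t x) := hc.comp (by fun_prop : Continuous fun x : ℝ => (t, x))
    exact h2.measurable.enorm.pow_const 4
  calc ∫⁻ t in Icc (1 : ℝ) 2, ∫⁻ x : ℝ, ‖Ux a (mc s τ t) G x‖ₑ ^ 4
      ≤ ∫⁻ t in Icc (1 : ℝ) 2, ((∫⁻ x : ℝ, ‖V t x‖ₑ ^ 4) + ∫⁻ x : ℝ, ‖V (-t) x‖ₑ ^ 4) := by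
        refine lintegral_mono fun t => ?_
        rw [← lintegral_add_left (hmx t)]
        refine lintegral_mono fun x => ?_
        rw [hU]
        exact pow4_two _ _
    _ = (∫⁻ t in Icc (1 : ℝ) 2, ∫⁻ x : ℝ, ‖V t x‖ₑ ^ 4) +
          ∫⁻ t in Icc (1 : ℝ) 2, ∫⁻ x : ℝ, ‖V (-t) x‖ₑ ^ 4 := lintegral_add_left hm2 _
    _ ≤ (∫⁻ t in Icc (-2 : ℝ) 2, ∫⁻ x : ℝ, ‖V t x‖ₑ ^ 4) +
          ∫⁻ t in Icc (-2 : ℝ) 2, ∫⁻ x : ℝ, ‖V t x‖ₑ ^ 4 := by
        refine add_le_add (lintegral_mono_set (Icc_subset_Icc (by norm_num) le_rfl)) ?_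
        exact neg_le (fun t => ∫⁻ x : ℝ, ‖V t x‖ₑ ^ 4)
    _ ≤ _ := by
        rw [add_mul]
        exact add_le_add h h

lemma sin_part {C C' a τ s : ℝ} {G : ℝ → ℂ} (ha : 0 < a) (hτ : 0 < τ) (hs : 0 < s)
    (hG : Integrable G)
    (h : ∫⁻ t in Icc (-2 : ℝ) 2, ∫⁻ x : ℝ,
      ‖Vx a (fun ξ => ((2 * Real.pi * ra a ξ * wa τ (s + 1) (ra a ξ) : ℝ) : ℂ)) G t x‖ₑ ^ 4 ≤
        ENNReal.ofReal C * ∫⁻ x : ℝ, ‖G x‖ₑ ^ 4)
    (h' : ∫⁻ t in Icc (-2 : ℝ) 2, ∫⁻ x : ℝ,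
      ‖Vx a (fun ξ => ((wa τ (s + 1) (ra a ξ) : ℝ) : ℂ)) G t x‖ₑ ^ 4 ≤
        ENNReal.ofReal C' * ∫⁻ x : ℝ, ‖G x‖ₑ ^ 4) :
    ∫⁻ t in Icc (1 : ℝ) 2, ∫⁻ x : ℝ, ‖Ux a (ms s τ t) G x‖ₑ ^ 4 ≤
      (16 * (ENNReal.ofReal C + ENNReal.ofReal C + 64 * ENNReal.ofReal C')) *
        ∫⁻ x : ℝ, ‖G x‖ₑ ^ 4 := by
  have hi : Integrable (fun ξ => ((2 * Real.pi * ra a ξ * wa τ (s + 1) (ra a ξ) : ℝ) : ℂ)) :=
    (integrable_wb hτ hs).ofReal
  have hi3 : Integrable (fun ξ => ((wa τ (s + 1) (ra a ξ) : ℝ) : ℂ)) :=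
    (integrable_wa hτ (by linarith)).ofReal
  obtain ⟨V, hV⟩ : ∃ V, V = fun t x =>
    Vx a (fun ξ => ((2 * Real.pi * ra a ξ * wa τ (s + 1) (ra a ξ) : ℝ) : ℂ)) G t x := ⟨_, rfl⟩
  obtain ⟨W, hW⟩ : ∃ W, W = fun t x =>
    Vx a (fun ξ => ((wa τ (s + 1) (ra a ξ) : ℝ) : ℂ)) G t x := ⟨_, rfl⟩
  have hc : Continuous (fun z : ℝ × ℝ => V z.1 z.2) := by rw [hV]; exact cont_Vx a hi hG
  have hcW : Continuous (fun z : ℝ × ℝ => W z.1 z.2) := by rw [hW]; exact cont_Vx a hi3 hG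
  have hU : ∀ t x, 0 ≤ t → Ux a (ms s τ t) G x = (1 / (2 * Complex.I) : ℂ) *
      (V t x - V (-t) x) + (1 / 2 : ℂ) * ∫ t' in (-t)..t, W t' x := by
    intro t x ht; rw [hV, hW]; exact Ux_ms t x ht ha hτ hs hG
  have hV' : ∀ t x, Vx a (fun ξ => ((2 * Real.pi * ra a ξ * wa τ (s + 1) (ra a ξ) : ℝ) : ℂ))
      G t x = V t x := by
    intro t x; rw [hV]
  have hW' : ∀ t x, Vx a (fun ξ => ((wa τ (s + 1) (ra a ξ) : ℝ) : ℂ)) G t x = W t x := by
    intro t x; rw [hW]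
  simp_rw [hV'] at h
  simp_rw [hW'] at h'
  have hm : Measurable (fun z : ℝ × ℝ => ‖V z.1 z.2‖ₑ ^ 4) := by
    have := hc.measurable; fun_prop
  have hm2 : Measurable (fun t => ∫⁻ x : ℝ, ‖V t x‖ₑ ^ 4) := hm.lintegral_prod_right'
  have hmx : ∀ t, Measurable (fun x => ‖V t x‖ₑ ^ 4) := by
    intro t
    have h2 : Continuous (fun x => V t x) := hc.comp (by fun_prop : Continuous fun x : ℝ => (t, x))
    exact h2.measurable.enorm.pow_const 4
  have hn : Measurable (fun z : ℝ × ℝ => ‖W z.1 z.2‖ₑ ^ 4) := by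
    have := hcW.measurable; fun_prop
  have hI : ∀ t x, t ∈ Icc (1 : ℝ) 2 → ‖∫ t' in (-t)..t, W t' x‖ₑ ^ 4 ≤
      64 * ∫⁻ t' in Icc (-2 : ℝ) 2, ‖W t' x‖ₑ ^ 4 := by
    intro t x ht
    have hle : -t ≤ t := by linarith [ht.1]
    have h1 : ‖∫ t' in (-t)..t, W t' x‖ₑ ≤ ∫⁻ t' in Icc (-2 : ℝ) 2, ‖W t' x‖ₑ := by
      rw [intervalIntegral.integral_of_le hle]
      refine (enorm_integral_le_lintegral_enorm _).trans (lintegral_mono_set ?_)
      intro y hy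
      exact ⟨by linarith [hy.1, ht.2], by linarith [hy.2, ht.2]⟩
    refine (pow_le_pow_left' h1 4).trans (holder4 _ ?_)
    have h2 : Continuous (fun t' => W t' x) := hcW.comp (by fun_prop : Continuous fun t' : ℝ => (t', x))
    exact h2.measurable.enorm
  obtain ⟨J, hJ⟩ : ∃ J : ℝ → ℝ≥0∞, J = fun x => 64 * ∫⁻ t' in Icc (-2 : ℝ) 2, ‖W t' x‖ₑ ^ 4 :=
    ⟨_, rfl⟩
  have hJI : ∫⁻ x, J x ≤ 64 * ENNReal.ofReal C' * ∫⁻ x : ℝ, ‖G x‖ₑ ^ 4 := by
    rw [hJ, lintegral_const_mul' _ _ (by norm_num), mul_assoc]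
    refine mul_le_mul_right ?_ _
    rw [lintegral_lintegral_swap]
    · exact h'
    · exact (hn.comp measurable_swap).aemeasurable
  calc ∫⁻ t in Icc (1 : ℝ) 2, ∫⁻ x : ℝ, ‖Ux a (ms s τ t) G x‖ₑ ^ 4
      ≤ ∫⁻ t in Icc (1 : ℝ) 2, 16 * (((∫⁻ x : ℝ, ‖V t x‖ₑ ^ 4) + ∫⁻ x : ℝ, ‖V (-t) x‖ₑ ^ 4) +
          ∫⁻ x, J x) := by
        refine setLIntegral_mono' measurableSet_Icc fun t ht => ?_
        have hadd : Measurable (fun x => ‖V t x‖ₑ ^ 4 + ‖V (-t) x‖ₑ ^ 4) :=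
          (hmx t).add (hmx (-t))
        rw [← lintegral_add_left (hmx t), ← lintegral_add_left hadd,
          ← lintegral_const_mul' _ _ (by norm_num)]
        refine lintegral_mono fun x => ?_
        rw [hU t x (by linarith [ht.1])]
        refine (pow4_three _ _ _).trans ?_
        have := hI t x ht
        rw [hJ]
        gcongr
    _ = 16 * (((∫⁻ t in Icc (1 : ℝ) 2, ∫⁻ x : ℝ, ‖V t x‖ₑ ^ 4) +
          ∫⁻ t in Icc (1 : ℝ) 2, ∫⁻ x : ℝ, ‖V (-t) x‖ₑ ^ 4) + ∫⁻ x, J x) := by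
        rw [lintegral_const_mul' _ _ (by norm_num)]
        have hm3 : Measurable (fun t => ∫⁻ x : ℝ, ‖V (-t) x‖ₑ ^ 4) := hm2.comp measurable_neg
        have hadd : Measurable (fun t => (∫⁻ x : ℝ, ‖V t x‖ₑ ^ 4) +
            ∫⁻ x : ℝ, ‖V (-t) x‖ₑ ^ 4) := hm2.add hm3
        rw [lintegral_add_left hadd, lintegral_add_left hm2]
        have h1 : ∫⁻ t in Icc (1 : ℝ) 2, (∫⁻ x, J x) = ∫⁻ x, J x := by
          rw [lintegral_const, Measure.restrict_apply MeasurableSet.univ, univ_inter,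
            Real.volume_Icc]
          norm_num
        rw [h1]
    _ ≤ 16 * ((ENNReal.ofReal C * ∫⁻ x : ℝ, ‖G x‖ₑ ^ 4) +
          (ENNReal.ofReal C * ∫⁻ x : ℝ, ‖G x‖ₑ ^ 4) +
          64 * ENNReal.ofReal C' * ∫⁻ x : ℝ, ‖G x‖ₑ ^ 4) := by
        have h1 : ∫⁻ t in Icc (1 : ℝ) 2, ∫⁻ x : ℝ, ‖V t x‖ₑ ^ 4 ≤
            ENNReal.ofReal C * ∫⁻ x : ℝ, ‖G x‖ₑ ^ 4 :=
          (lintegral_mono_set (Icc_subset_Icc (by norm_num) le_rfl)).trans h
        have h2 : ∫⁻ t in Icc (1 : ℝ) 2, ∫⁻ x : ℝ, ‖V (-t) x‖ₑ ^ 4 ≤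
            ENNReal.ofReal C * ∫⁻ x : ℝ, ‖G x‖ₑ ^ 4 :=
          (neg_le (fun t => ∫⁻ x : ℝ, ‖V t x‖ₑ ^ 4)).trans h
        gcongr
    _ = _ := by ring

/-- the two propagators of the wave equation -/
theorem one_thm : S_SUM → S_ONE := by
  intro h s hs
  obtain ⟨A1, hA1, hw1⟩ := syk_wa s hs
  obtain ⟨A2, hA2, hw2⟩ := syk_wb s hs
  obtain ⟨A3, hA3, hw3⟩ := syk_wa (s + 1) (by linarith)
  obtain ⟨C1, hC1, h1⟩ := sum_K h s A1 hs hA1
  obtain ⟨C2, hC2, h2⟩ := sum_K h s A2 hs hA2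
  obtain ⟨C3, hC3, h3⟩ := sum_K h s A3 hs hA3
  refine ⟨(C1 + C1) + 16 * (C2 + C2 + 64 * C3), by positivity,
    fun a τ G ha hτ hτ1 hG => ⟨?_, ?_⟩⟩
  · refine (cos_part hτ hs hG (h1 a (wa τ s) G ha (hw1 τ hτ hτ1)
      (integrable_wa hτ hs) hG)).trans ?_
    rw [← ENNReal.ofReal_add hC1.le hC1.le]
    refine mul_le_mul' (ENNReal.ofReal_le_ofReal ?_) le_rfl
    have : 0 ≤ 16 * (C2 + C2 + 64 * C3) := by positivity
    linarith
  · refine (sin_part ha hτ hs hG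
      (h2 a (fun r => 2 * Real.pi * r * wa τ (s + 1) r) G ha (hw2 τ hτ hτ1)
        (integrable_wb hτ hs) hG)
      (h3 a (wa τ (s + 1)) G ha ((hw3 τ hτ hτ1).mono (by linarith) hA3.le)
        (integrable_wa hτ (by linarith)) hG)).trans ?_
    refine mul_le_mul' ?_ le_rfl
    have e : 16 * (ENNReal.ofReal C2 + ENNReal.ofReal C2 + 64 * ENNReal.ofReal C3) =
        ENNReal.ofReal (16 * (C2 + C2 + 64 * C3)) := by
      rw [ENNReal.ofReal_mul (by norm_num), ENNReal.ofReal_add (by positivity) (by positivity),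
        ENNReal.ofReal_add hC2.le hC2.le, ENNReal.ofReal_mul (by norm_num)]
      norm_num
    rw [e]
    refine ENNReal.ofReal_le_ofReal ?_
    linarith

end Pool.Agent.TH312.ONE
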